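import Mathlib

/-!
# Martin's axiom gives an uncountable strongly surjective set of reals

We prove in ZFC (here: in Lean with Mathlib) that `MA_{aleph_1}` implies that some set of reals of
cardinality `aleph_1` is strongly surjective.
-/

open Cardinal

namespace Pool.Agent.Results.MP_841ff5_lc.MAStronglySurjective

/-- `D` is a dense subset of the partial order `P`. -/
def IsDenseIn {P : Type} [PartialOrder P] (D : Set P) : Prop :=
  ∀ p : P, ∃ d ∈ D, d ≤ p

/-- `P` has the countable chain condition: every set of pairwise incompatible elements is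
countable. -/
def CCC (P : Type) [PartialOrder P] : Prop :=
  ∀ S : Set P, (∀ p ∈ S, ∀ q ∈ S, p ≠ q → ¬ ∃ r : P, r ≤ p ∧ r ≤ q) → S.Countable

/-- `G` is a filter on the partial order `P`. -/
def IsFilterOn {P : Type} [PartialOrder P] (G : Set P) : Prop :=
  G.Nonempty ∧ (∀ p ∈ G, ∀ q : P, p ≤ q → q ∈ G) ∧ ∀ p ∈ G, ∀ q ∈ G, ∃ r ∈ G, r ≤ p ∧ r ≤ q

/-- Martin's axiom for `aleph_1` dense sets: for every (nonempty) ccc partial order `P` and every
family of at most `aleph_1` dense subsets of `P` there is a filter on `P` meeting each of them. -/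
def MartinAxiomAlephOne : Prop :=
  ∀ (P : Type) [PartialOrder P] [Nonempty P], CCC P →
    ∀ F : Set (Set P), #F ≤ ℵ₁ → (∀ D ∈ F, IsDenseIn D) →
      ∃ G : Set P, IsFilterOn G ∧ ∀ D ∈ F, (G ∩ D).Nonempty

/-- A linear order `L` is strongly surjective if it is nonempty and for every suborder (nonempty
subset) `K` of `L` there is a surjection from `L` onto `K` that is order preserving in the weak
sense. -/
def StronglySurjective (L : Type) [LinearOrder L] : Prop :=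
  Nonempty L ∧ ∀ K : Set L, K.Nonempty → ∃ f : L → K, Monotone f ∧ Function.Surjective f

/-! ### The forcing -/

/-- Order compatibility of two fibres: `(d, l, u)` stands for the promise that the fibre of `d`
is `[l, u]`. -/
def Coh (t t' : ℝ × ℝ × ℝ) : Prop :=
  (t.1 = t'.1 → t = t') ∧ (t.1 < t'.1 → t.2.2 < t'.2.1) ∧ (t'.1 < t.1 → t'.2.2 < t.2.1)

/-- The promises for elements of the countable set `H`. -/
def HAtom (H : Set ℝ) (t : ℝ × ℝ × ℝ) : Prop :=
  t.1 ∈ H ∧ ∃ r s : ℚ, r < s ∧ t.2 = ((r : ℝ), (s : ℝ))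

/-- The promises for elements of `D \ H`. -/
def QAtom (D H : Set ℝ) (t : ℝ × ℝ × ℝ) : Prop :=
  t.1 ∈ D ∧ t.1 ∉ H ∧ ∃ q : ℚ, t.2 = (t.1 + q, t.1 + q)

/-- The conditions: finite coherent sets of promises. -/
def Cond (D H : Set ℝ) : Type :=
  {p : Finset (ℝ × ℝ × ℝ) // (∀ t ∈ p, HAtom H t ∨ QAtom D H t) ∧ ∀ t ∈ p, ∀ t' ∈ p, Coh t t'}

instance (D H : Set ℝ) : PartialOrder (Cond D H) :=
  PartialOrder.lift (fun p => OrderDual.toDual p.1) fun _ _ h =>
    Subtype.ext (OrderDual.toDual.injective h)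

theorem cond_le_iff {D H : Set ℝ} {p q : Cond D H} : p ≤ q ↔ q.1 ⊆ p.1 := Iff.rfl

instance (D H : Set ℝ) : Nonempty (Cond D H) :=
  ⟨⟨∅, by simp, by simp⟩⟩

theorem Coh.symm {t t' : ℝ × ℝ × ℝ} (h : Coh t t') : Coh t' t :=
  ⟨fun e => (h.1 e.symm).symm, h.2.2, h.2.1⟩

theorem finset_exists_pos {α : Type} (s : Finset α) (g : α → ℝ) (hg : ∀ x ∈ s, 0 < g x) :
    ∃ δ : ℝ, 0 < δ ∧ ∀ x ∈ s, δ < g x := by
  classical
  induction s using Finset.induction_on with
  | empty => exact ⟨1, one_pos, by simp⟩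
  | insert a s ha ih =>
    obtain ⟨δ, hδ, h⟩ := ih fun x hx => hg x (Finset.mem_insert_of_mem hx)
    have hga := hg a (Finset.mem_insert_self a s)
    refine ⟨min δ (g a / 2), lt_min hδ (half_pos hga), fun x hx => ?_⟩
    rcases Finset.mem_insert.1 hx with rfl | hx
    · exact lt_of_le_of_lt (min_le_right _ _) (half_lt_self hga)
    · exact lt_of_le_of_lt (min_le_left _ _) (h x hx)

/-- All promises compatible with a code. -/
def Region (H : Set ℝ) (τ : Finset {t : ℝ × ℝ × ℝ // HAtom H t} × Finset (ℚ × ℚ × ℚ)) :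
    Set (ℝ × ℝ × ℝ) :=
  {t | (∃ x ∈ τ.1, x.1 = t) ∨
    ∃ y ∈ τ.2, (y.1 : ℝ) < t.1 ∧ t.1 < y.2.1 ∧ t.2 = (t.1 + y.2.2, t.1 + y.2.2)}

theorem exists_code {D H : Set ℝ} (p : Cond D H) :
    ∃ τ : Finset {t : ℝ × ℝ × ℝ // HAtom H t} × Finset (ℚ × ℚ × ℚ),
      (∀ t ∈ p.1, t ∈ Region H τ) ∧ ∀ t ∈ Region H τ, ∀ t' ∈ Region H τ, Coh t t' := by
  classical
  obtain ⟨p, hp, hcoh⟩ := p
  -- a uniform bound on the gaps
  obtain ⟨δ, hδ, hgap⟩ := finset_exists_pos (p ×ˢ p)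
    (fun z => if z.1.1 < z.2.1 then min (z.2.1 - z.1.1) (z.2.2.1 - z.1.2.2) / 2 else 1) (by
      rintro ⟨t, t'⟩ hz
      rw [Finset.mem_product] at hz
      simp only
      split_ifs with hlt
      · have := (hcoh t hz.1 t' hz.2).2.1 hlt
        exact half_pos (lt_min (by linarith) (by linarith))
      · exact one_pos)
  have hgap' : ∀ t ∈ p, ∀ t' ∈ p, t.1 < t'.1 →
      2 * δ < t'.1 - t.1 ∧ 2 * δ < t'.2.1 - t.2.2 := by
    intro t ht t' ht' hlt
    have h1 := hgap (t, t') (Finset.mk_mem_product ht ht')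
    simp only [hlt, if_true] at h1
    have h2 := min_le_left (t'.1 - t.1) (t'.2.1 - t.2.2)
    have h3 := min_le_right (t'.1 - t.1) (t'.2.1 - t.2.2)
    constructor <;> linarith
  -- the boxes
  have hbox : ∀ t : ℝ × ℝ × ℝ, ∃ y : ℚ × ℚ × ℚ, t.1 - δ < y.1 ∧ (y.1 : ℝ) < t.1 ∧
      t.1 < y.2.1 ∧ (y.2.1 : ℝ) < t.1 + δ ∧
      (QAtom D H t → t.2 = (t.1 + y.2.2, t.1 + y.2.2)) := by
    intro t
    obtain ⟨a, ha1, ha2⟩ := exists_rat_btwn (show t.1 - δ < t.1 by linarith)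
    obtain ⟨b, hb1, hb2⟩ := exists_rat_btwn (show t.1 < t.1 + δ by linarith)
    by_cases hQ : QAtom D H t
    · obtain ⟨-, -, q, hq⟩ := id hQ
      exact ⟨(a, b, q), ha1, ha2, hb1, hb2, fun _ => hq⟩
    · exact ⟨(a, b, 0), ha1, ha2, hb1, hb2, fun h => absurd h hQ⟩
  choose box hbox1 hbox2 hbox3 hbox4 hbox5 using hbox
  refine ⟨(p.subtype (fun t => HAtom H t), (p.filter (fun t => QAtom D H t)).image box), ?_, ?_⟩
  · intro t ht
    rcases hp t ht with h | h
    · exact Or.inl ⟨⟨t, h⟩, by simpa using ht, rfl⟩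
    · refine Or.inr ⟨box t, Finset.mem_image_of_mem _ (Finset.mem_filter.2 ⟨ht, h⟩),
        hbox2 t, hbox3 t, hbox5 t h⟩
  · -- every element of the region is close to an element of `p`
    have hclose : ∀ x ∈ Region H (p.subtype (fun t => HAtom H t),
        (p.filter (fun t => QAtom D H t)).image box),
        ∃ t ∈ p, ∃ ε : ℝ, |ε| < δ ∧ x = (t.1 + ε, t.2.1 + ε, t.2.2 + ε) ∧
          (ε = 0 ∨ t.2.1 = t.2.2) := by
      rintro x (⟨t, ht, rfl⟩ | ⟨y, hy, hy1, hy2, hy3⟩)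
      · refine ⟨t.1, by simpa using ht, 0, by simpa using hδ, by simp, Or.inl rfl⟩
      · obtain ⟨t, ht, rfl⟩ := Finset.mem_image.1 hy
        obtain ⟨htp, htQ⟩ := Finset.mem_filter.1 ht
        have h5 := hbox5 t htQ
        refine ⟨t, htp, x.1 - t.1, ?_, ?_, Or.inr (by rw [h5])⟩
        · rw [abs_lt]
          have := hbox1 t
          have := hbox4 t
          constructor <;> linarith
        · refine Prod.ext (by simp) ?_
          rw [hy3, h5]
          refine Prod.ext ?_ ?_ <;> simp <;> ring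
    intro x hx x' hx'
    obtain ⟨t, ht, ε, hε, hxt, h0⟩ := hclose x hx
    obtain ⟨t', ht', ε', hε', hxt', h0'⟩ := hclose x' hx'
    rw [abs_lt] at hε hε'
    have hx1 : x.1 = t.1 + ε := by rw [hxt]
    have hx21 : x.2.1 = t.2.1 + ε := by rw [hxt]
    have hx22 : x.2.2 = t.2.2 + ε := by rw [hxt]
    have hx1' : x'.1 = t'.1 + ε' := by rw [hxt']
    have hx21' : x'.2.1 = t'.2.1 + ε' := by rw [hxt']
    have hx22' : x'.2.2 = t'.2.2 + ε' := by rw [hxt']
    rcases lt_trichotomy t.1 t'.1 with hlt | heq | hgt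
    · obtain ⟨h1, h2⟩ := hgap' t ht t' ht' hlt
      refine ⟨fun h => ?_, fun _ => ?_, fun h => ?_⟩
      · exfalso; linarith
      · linarith
      · exfalso; linarith
    · have htt : t = t' := (hcoh t ht t' ht').1 heq
      subst htt
      refine ⟨fun h => ?_, fun h => ?_, fun h => ?_⟩
      · have : ε = ε' := by linarith
        rw [hxt, hxt', this]
      · have hne : t.2.1 = t.2.2 := by
          rcases h0 with h0 | h0
          · rcases h0' with h0' | h0'
            · exfalso; linarith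
            · exact h0'
          · exact h0
        linarith
      · have hne : t.2.1 = t.2.2 := by
          rcases h0 with h0 | h0
          · rcases h0' with h0' | h0'
            · exfalso; linarith
            · exact h0'
          · exact h0
        linarith
    · obtain ⟨h1, h2⟩ := hgap' t' ht' t ht hgt
      refine ⟨fun h => ?_, fun h => ?_, fun _ => ?_⟩
      · exfalso; linarith
      · exfalso; linarith
      · linarith

theorem ccc_cond {D H : Set ℝ} (hH : H.Countable) : CCC (Cond D H) := by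
  classical
  have : Countable H := hH
  have : Countable {t : ℝ × ℝ × ℝ // HAtom H t} := by
    have hsub : {t : ℝ × ℝ × ℝ | HAtom H t} ⊆
        Set.range (fun x : H × ℚ × ℚ => ((x.1 : ℝ), (x.2.1 : ℝ), (x.2.2 : ℝ))) := by
      rintro t ⟨h1, r, s, -, h2⟩
      exact ⟨(⟨t.1, h1⟩, r, s), Prod.ext rfl h2.symm⟩
    exact ((Set.countable_range _).mono hsub).to_subtype
  intro S hS
  choose c hc1 hc2 using fun p : Cond D H => exists_code p
  have hinj : Set.InjOn c S := by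
    intro p hp q hq hpq
    by_contra hne
    refine hS p hp q hq hne ?_
    refine ⟨⟨p.1 ∪ q.1, ?_, ?_⟩, ?_, ?_⟩
    · intro t ht
      rcases Finset.mem_union.1 ht with ht | ht
      · exact p.2.1 t ht
      · exact q.2.1 t ht
    · have h1 : ∀ t ∈ p.1 ∪ q.1, t ∈ Region H (c p) := by
        intro t ht
        rcases Finset.mem_union.1 ht with ht | ht
        · exact hc1 p t ht
        · rw [hpq]
          exact hc1 q t ht
      intro t ht t' ht'
      exact hc2 p t (h1 t ht) t' (h1 t' ht')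
    · exact cond_le_iff.2 Finset.subset_union_left
    · exact cond_le_iff.2 Finset.subset_union_right
  exact Set.countable_of_injective_of_countable_image hinj (Set.to_countable _)

/-- The generic surjection onto a densely ordered set without endpoints. -/
theorem exists_surjection_of_dense (hMA : MartinAxiomAlephOne) {A D : Set ℝ} (hA : A.Nonempty)
    (hAQ : ∀ a ∈ A, ∀ q : ℚ, a + q ∈ A) (hcard : #A ≤ ℵ₁) (hDA : D ⊆ A)
    (hdense : ∀ d ∈ D, ∀ d' ∈ D, d < d' → ∃ e ∈ D, d < e ∧ e < d')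
    (hmin : ∀ d ∈ D, ∃ e ∈ D, e < d) (hmax : ∀ d ∈ D, ∃ e ∈ D, d < e) (hD : D.Nonempty) :
    ∃ f : ℝ → ℝ, (∀ a ∈ A, f a ∈ D) ∧ (∀ a ∈ A, ∀ b ∈ A, a ≤ b → f a ≤ f b) ∧
      ∀ d ∈ D, ∃ a ∈ A, f a = d := by
  classical
  -- a countable dense subset of `D`
  obtain ⟨H', hH'c, hH'd⟩ := TopologicalSpace.exists_countable_dense D
  have hHex : ∀ r s : ℝ, (∃ d ∈ D, r < d ∧ d < s) →
      ∃ h ∈ ((↑) '' H' : Set ℝ), r < h ∧ h < s := by
    rintro r s ⟨d, hd, h1, h2⟩
    have hopen : IsOpen {x : D | r < x.1 ∧ x.1 < s} :=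
      (isOpen_lt continuous_const continuous_subtype_val).inter
        (isOpen_lt continuous_subtype_val continuous_const)
    obtain ⟨x, hx, hxH⟩ := hH'd.inter_open_nonempty _ hopen ⟨⟨d, hd⟩, h1, h2⟩
    exact ⟨x.1, ⟨x, hxH, rfl⟩, hx.1, hx.2⟩
  obtain ⟨H, hHdef⟩ : ∃ H : Set ℝ, H = (↑) '' H' := ⟨_, rfl⟩
  rw [← hHdef] at hHex
  have hHc : H.Countable := by
    rw [hHdef]
    exact hH'c.image _
  have hHD : H ⊆ D := by
    rw [hHdef]
    rintro _ ⟨x, -, rfl⟩
    exact x.2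
  clear hHdef
  -- `A` is dense
  have hAdense : ∀ r s : ℝ, r < s → ∃ a ∈ A, r < a ∧ a < s := by
    intro r s hrs
    obtain ⟨a, ha⟩ := hA
    obtain ⟨q, hq1, hq2⟩ := exists_rat_btwn (show r - a < s - a by linarith)
    exact ⟨a + q, hAQ a ha q, by linarith, by linarith⟩
  -- extension of a condition by one promise
  have hext : ∀ (p : Cond D H) (t : ℝ × ℝ × ℝ), (HAtom H t ∨ QAtom D H t) →
      (∀ t' ∈ p.1, Coh t t') → ∃ p' ≤ p, t ∈ p'.1 := by
    intro p t ht hcoh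
    refine ⟨⟨insert t p.1, ?_, ?_⟩, ?_, Finset.mem_insert_self _ _⟩
    · intro x hx
      rcases Finset.mem_insert.1 hx with hx | hx
      · rw [hx]
        exact ht
      · exact p.2.1 x hx
    · intro x hx x' hx'
      rcases Finset.mem_insert.1 hx with hx | hx
      · rcases Finset.mem_insert.1 hx' with hx' | hx'
        · rw [hx, hx']
          exact ⟨fun _ => rfl, fun h => absurd h (lt_irrefl _), fun h => absurd h (lt_irrefl _)⟩
        · rw [hx]
          exact hcoh x' hx'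
      · rcases Finset.mem_insert.1 hx' with hx' | hx'
        · rw [hx']
          exact (hcoh x hx).symm
        · exact p.2.2 x hx x' hx'
    · exact cond_le_iff.2 (Finset.subset_insert _ _)
  have hle : ∀ (p : Cond D H), ∀ t ∈ p.1, t.2.1 ≤ t.2.2 := by
    intro p t ht
    rcases p.2.1 t ht with ⟨-, r, s, hrs, h⟩ | ⟨-, -, q, h⟩
    · rw [h]
      change (r : ℝ) ≤ s
      exact_mod_cast hrs.le
    · rw [h]
  have hdomD : ∀ (p : Cond D H), ∀ t ∈ p.1, t.1 ∈ D := by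
    intro p t ht
    rcases p.2.1 t ht with h | h
    · exact hHD h.1
    · exact h.1
  -- the dense sets
  have hD1 : ∀ d ∈ D, IsDenseIn {p : Cond D H | ∃ t ∈ p.1, t.1 = d} := by
    intro d hd p
    by_cases hex : ∃ t ∈ p.1, t.1 = d
    · exact ⟨p, hex, le_rfl⟩
    push Not at hex
    obtain ⟨lo, hlo1, hlo2⟩ := Order.exists_between_finsets
      ((p.1.filter (fun t => t.1 < d)).image (fun t => t.2.2))
      ((p.1.filter (fun t => d < t.1)).image (fun t => t.2.1)) (by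
        intro x hx y hy
        obtain ⟨t, ht, rfl⟩ := Finset.mem_image.1 hx
        obtain ⟨t', ht', rfl⟩ := Finset.mem_image.1 hy
        rw [Finset.mem_filter] at ht ht'
        exact (p.2.2 t ht.1 t' ht'.1).2.1 (ht.2.trans ht'.2))
    obtain ⟨hi, hhi1, hhi2⟩ := Order.exists_between_finsets {lo}
      ((p.1.filter (fun t => d < t.1)).image (fun t => t.2.1)) (by
        intro x hx y hy
        rw [Finset.mem_singleton] at hx
        rw [hx]
        exact hlo2 y hy)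
    have hlohi : lo < hi := hhi1 lo (Finset.mem_singleton_self lo)
    have hcoh : ∀ l u : ℝ, lo < l → u < hi → ∀ t' ∈ p.1, Coh (d, l, u) t' := by
      intro l u hl hu t' ht'
      refine ⟨fun h => absurd h.symm (hex t' ht'), fun h => ?_, fun h => ?_⟩
      · exact hu.trans (hhi2 _ (Finset.mem_image_of_mem _ (Finset.mem_filter.2 ⟨ht', h⟩)))
      · exact (hlo1 _ (Finset.mem_image_of_mem _ (Finset.mem_filter.2 ⟨ht', h⟩))).trans hl
    by_cases hdH : d ∈ H
    · obtain ⟨r, hr1, hr2⟩ := exists_rat_btwn hlohi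
      obtain ⟨s, hs1, hs2⟩ := exists_rat_btwn hr2
      obtain ⟨p', hp', ht⟩ := hext p (d, r, s) (Or.inl ⟨hdH, r, s, by exact_mod_cast hs1, rfl⟩)
        (hcoh r s hr1 hs2)
      exact ⟨p', ⟨_, ht, rfl⟩, hp'⟩
    · obtain ⟨q, hq1, hq2⟩ := exists_rat_btwn (show lo - d < hi - d by linarith)
      obtain ⟨p', hp', ht⟩ := hext p (d, d + q, d + q) (Or.inr ⟨hd, hdH, q, rfl⟩)
        (hcoh (d + q) (d + q) (by linarith) (by linarith))
      exact ⟨p', ⟨_, ht, rfl⟩, hp'⟩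
  have hD2 : ∀ a ∈ A, IsDenseIn {p : Cond D H | ∃ t ∈ p.1, t.2.1 ≤ a ∧ a ≤ t.2.2} := by
    intro a ha p
    by_cases hex : ∃ t ∈ p.1, t.2.1 ≤ a ∧ a ≤ t.2.2
    · exact ⟨p, hex, le_rfl⟩
    push Not at hex
    have : DenselyOrdered D := ⟨fun x y hxy => by
      obtain ⟨e, he, h1, h2⟩ := hdense x x.2 y y.2 hxy
      exact ⟨⟨e, he⟩, h1, h2⟩⟩
    have : NoMinOrder D := ⟨fun x => by
      obtain ⟨e, he, h1⟩ := hmin x x.2
      exact ⟨⟨e, he⟩, h1⟩⟩
    have : NoMaxOrder D := ⟨fun x => by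
      obtain ⟨e, he, h1⟩ := hmax x x.2
      exact ⟨⟨e, he⟩, h1⟩⟩
    have : Nonempty D := hD.to_subtype
    obtain ⟨m₁, hm1, hm1'⟩ := Order.exists_between_finsets
      (((p.1.filter (fun t => t.2.2 < a)).image Prod.fst).subtype (fun x => x ∈ D))
      (((p.1.filter (fun t => a < t.2.1)).image Prod.fst).subtype (fun x => x ∈ D)) (by
        intro x hx y hy
        rw [Finset.mem_subtype] at hx hy
        obtain ⟨t, ht, htx⟩ := Finset.mem_image.1 hx
        obtain ⟨t', ht', hty⟩ := Finset.mem_image.1 hy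
        rw [Finset.mem_filter] at ht ht'
        rw [← Subtype.coe_lt_coe, ← htx, ← hty]
        have h1 := hle p t ht.1
        have h2 := hle p t' ht'.1
        have h3 := p.2.2 t ht.1 t' ht'.1
        rcases lt_trichotomy t.1 t'.1 with h | h | h
        · exact h
        · have := h3.1 h
          rw [this] at ht h1
          exfalso
          linarith [ht.2, ht'.2]
        · have := h3.2.2 h
          exfalso
          linarith [ht.2, ht'.2])
    obtain ⟨m₂, hm2, hm2'⟩ := Order.exists_between_finsets {m₁}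
      (((p.1.filter (fun t => a < t.2.1)).image Prod.fst).subtype (fun x => x ∈ D)) (by
        intro x hx y hy
        rw [Finset.mem_singleton] at hx
        rw [hx]
        exact hm1' y hy)
    have hm12 : m₁ < m₂ := hm2 m₁ (Finset.mem_singleton_self _)
    obtain ⟨h, hh, hh1, hh2⟩ := hHex m₁ m₂ (hdense m₁ m₁.2 m₂ m₂.2 hm12)
    have hU : ∀ t ∈ p.1, t.2.2 < a → t.1 < h := by
      intro t ht hta
      have := hm1 ⟨t.1, hdomD p t ht⟩ (Finset.mem_subtype.2
        (Finset.mem_image_of_mem _ (Finset.mem_filter.2 ⟨ht, hta⟩)))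
      exact lt_trans (Subtype.coe_lt_coe.2 this) hh1
    have hV : ∀ t ∈ p.1, a < t.2.1 → h < t.1 := by
      intro t ht hta
      have := hm2' ⟨t.1, hdomD p t ht⟩ (Finset.mem_subtype.2
        (Finset.mem_image_of_mem _ (Finset.mem_filter.2 ⟨ht, hta⟩)))
      exact lt_trans hh2 (Subtype.coe_lt_coe.2 this)
    have hUV : ∀ t ∈ p.1, t.2.2 < a ∨ a < t.2.1 := by
      intro t ht
      by_cases h1 : t.2.1 ≤ a
      · exact Or.inl (hex t ht h1)
      · exact Or.inr (not_le.1 h1)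
    obtain ⟨lo, hlo1, hlo2⟩ := Order.exists_between_finsets
      ((p.1.filter (fun t => t.2.2 < a)).image (fun t => t.2.2)) {a} (by
        intro x hx y hy
        obtain ⟨t, ht, rfl⟩ := Finset.mem_image.1 hx
        rw [Finset.mem_singleton] at hy
        rw [hy]
        exact (Finset.mem_filter.1 ht).2)
    obtain ⟨hi, hhi1, hhi2⟩ := Order.exists_between_finsets {a}
      ((p.1.filter (fun t => a < t.2.1)).image (fun t => t.2.1)) (by
        intro x hx y hy
        obtain ⟨t, ht, rfl⟩ := Finset.mem_image.1 hy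
        rw [Finset.mem_singleton] at hx
        rw [hx]
        exact (Finset.mem_filter.1 ht).2)
    obtain ⟨r, hr1, hr2⟩ := exists_rat_btwn (hlo2 a (Finset.mem_singleton_self a))
    obtain ⟨s, hs1, hs2⟩ := exists_rat_btwn (hhi1 a (Finset.mem_singleton_self a))
    have hcoh : ∀ t' ∈ p.1, Coh (h, r, s) t' := by
      intro t' ht'
      rcases hUV t' ht' with h1 | h1
      · have h2 := hU t' ht' h1
        refine ⟨fun e => absurd e.symm h2.ne, fun e => absurd e (not_lt.2 h2.le), fun _ => ?_⟩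
        exact (hlo1 _ (Finset.mem_image_of_mem _ (Finset.mem_filter.2 ⟨ht', h1⟩))).trans hr1
      · have h2 := hV t' ht' h1
        refine ⟨fun e => absurd e h2.ne, fun _ => ?_, fun e => absurd e (not_lt.2 h2.le)⟩
        exact hs2.trans (hhi2 _ (Finset.mem_image_of_mem _ (Finset.mem_filter.2 ⟨ht', h1⟩)))
    obtain ⟨p', hp', ht⟩ := hext p (h, r, s)
      (Or.inl ⟨hh, r, s, by exact_mod_cast hr2.trans hs1, rfl⟩) hcoh
    exact ⟨p', ⟨_, ht, hr2.le, hs1.le⟩, hp'⟩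
  -- the generic filter
  obtain ⟨G, hG, hGD⟩ := hMA (Cond D H) (ccc_cond hHc)
    ((fun d => {p : Cond D H | ∃ t ∈ p.1, t.1 = d}) '' D ∪
      (fun a => {p : Cond D H | ∃ t ∈ p.1, t.2.1 ≤ a ∧ a ≤ t.2.2}) '' A) (by
      refine (mk_union_le _ _).trans ?_
      have h1 : #D ≤ ℵ₁ := (mk_le_mk_of_subset hDA).trans hcard
      calc _ ≤ #D + #A := add_le_add mk_image_le mk_image_le
        _ ≤ ℵ₁ + ℵ₁ := add_le_add h1 hcard
        _ = ℵ₁ := add_eq_self (aleph0_le_aleph 1)) (by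
      rintro E (⟨d, hd, rfl⟩ | ⟨a, ha, rfl⟩)
      · exact hD1 d hd
      · exact hD2 a ha)
  have hGcoh : ∀ p ∈ G, ∀ t ∈ p.1, ∀ p' ∈ G, ∀ t' ∈ p'.1, Coh t t' := by
    intro p hp t ht p' hp' t' ht'
    obtain ⟨r, -, hr1, hr2⟩ := hG.2.2 p hp p' hp'
    exact r.2.2 t (hr1 ht) t' (hr2 ht')
  have hcov : ∀ a : ℝ, a ∈ A → ∃ t : ℝ × ℝ × ℝ, (∃ p ∈ G, t ∈ p.1) ∧ t.2.1 ≤ a ∧ a ≤ t.2.2 := by
    intro a ha
    obtain ⟨p, hp, t, ht, h1, h2⟩ := hGD _ (Or.inr ⟨a, ha, rfl⟩)
    exact ⟨t, ⟨p, hp, ht⟩, h1, h2⟩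
  choose! T hT1 hT2 hT3 using hcov
  refine ⟨fun a => (T a).1, ?_, ?_, ?_⟩
  · intro a ha
    obtain ⟨p, -, ht⟩ := hT1 a ha
    exact hdomD p _ ht
  · intro a ha b hb hab
    by_contra hlt
    rw [not_le] at hlt
    obtain ⟨p, hp, ht⟩ := hT1 a ha
    obtain ⟨p', hp', ht'⟩ := hT1 b hb
    have := (hGcoh p hp _ ht p' hp' _ ht').2.2 hlt
    linarith [hT2 a ha, hT3 b hb]
  · intro d hd
    obtain ⟨p, hp, t, ht, rfl⟩ := hGD _ (Or.inl ⟨d, hd, rfl⟩)
    obtain ⟨a, ha, h1, h2⟩ : ∃ a ∈ A, t.2.1 ≤ a ∧ a ≤ t.2.2 := by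
      rcases p.2.1 t ht with ⟨-, r, s, hrs, h⟩ | ⟨-, -, q, h⟩
      · obtain ⟨a, ha, h1, h2⟩ := hAdense r s (by exact_mod_cast hrs)
        rw [h]
        exact ⟨a, ha, h1.le, h2.le⟩
      · rw [h]
        exact ⟨t.1 + q, hAQ _ (hDA hd) q, le_rfl, le_rfl⟩
    refine ⟨a, ha, ?_⟩
    obtain ⟨p', hp', ht'⟩ := hT1 a ha
    have hc := hGcoh p hp t ht p' hp' _ ht'
    rcases lt_trichotomy t.1 (T a).1 with h | h | h
    · have := hc.2.1 h
      exfalso
      linarith [hT2 a ha]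
    · exact h.symm
    · have := hc.2.2 h
      exfalso
      linarith [hT3 a ha]

/-- Under `MA_{aleph_1}` every nonempty set of at most `aleph_1` reals closed under rational
translations is strongly surjective. -/
theorem stronglySurjective_of_rational_invariant (hMA : MartinAxiomAlephOne) {A : Set ℝ}
    (hA : A.Nonempty) (hAQ : ∀ a ∈ A, ∀ q : ℚ, a + q ∈ A) (hcard : #A ≤ ℵ₁) :
    StronglySurjective A := by
  classical
  refine ⟨hA.to_subtype, fun K₀ hK₀ => ?_⟩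
  -- `A` is dense
  have hAdense : ∀ r s : ℝ, r < s → ∃ a ∈ A, r < a ∧ a < s := by
    intro r s hrs
    obtain ⟨a, ha⟩ := hA
    obtain ⟨q, hq1, hq2⟩ := exists_rat_btwn (show r - a < s - a by linarith)
    exact ⟨a + q, hAQ a ha q, by linarith, by linarith⟩
  obtain ⟨K, hK⟩ : ∃ K : Set ℝ, K = (↑) '' K₀ := ⟨_, rfl⟩
  have hKA : K ⊆ A := by
    rw [hK]
    rintro _ ⟨x, -, rfl⟩
    exact x.2
  have hKne : K.Nonempty := by
    rw [hK]
    exact hK₀.image _
  have hKmem : ∀ x : A, x.1 ∈ K → x ∈ K₀ := by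
    intro x hx
    rw [hK] at hx
    obtain ⟨y, hy, hyx⟩ := hx
    rwa [← Subtype.ext hyx]
  have hKmem' : ∀ x ∈ K₀, x.1 ∈ K := by
    intro x hx
    rw [hK]
    exact ⟨x, hx, rfl⟩
  clear hK
  -- the elements of `A` adjacent to `K`
  obtain ⟨D, hDdef⟩ : ∃ D : Set ℝ, D = {a ∈ A | (∃ b, IsGreatest (K ∩ Set.Iic a) b) ∨
    ∃ b, IsLeast (K ∩ Set.Ici a) b} := ⟨_, rfl⟩
  have hDA : D ⊆ A := by
    rw [hDdef]
    exact fun x hx => hx.1
  have hKD : K ⊆ D := by
    rw [hDdef]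
    exact fun x hx => ⟨hKA hx, Or.inl ⟨x, ⟨hx, Set.mem_Iic.2 le_rfl⟩, fun c hc => hc.2⟩⟩
  have hDtype : ∀ d ∈ D, (∃ b, IsGreatest (K ∩ Set.Iic d) b) ∨
      ∃ b, IsLeast (K ∩ Set.Ici d) b := by
    rw [hDdef]
    exact fun d hd => hd.2
  have hDl : ∀ a ∈ A, ∀ b, IsGreatest (K ∩ Set.Iic a) b → a ∈ D := by
    rw [hDdef]
    exact fun a ha b hb => ⟨ha, Or.inl ⟨b, hb⟩⟩
  have hDr : ∀ a ∈ A, ∀ b, IsLeast (K ∩ Set.Ici a) b → a ∈ D := by
    rw [hDdef]
    exact fun a ha b hb => ⟨ha, Or.inr ⟨b, hb⟩⟩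
  clear hDdef
  obtain ⟨f, hf1, hf2, hf3⟩ := exists_surjection_of_dense hMA hA hAQ hcard hDA
    (by
      intro d hd d' hd' hdd'
      by_cases hc : ∃ c ∈ K, d < c ∧ c < d'
      · obtain ⟨c, hcK, h1, h2⟩ := hc
        exact ⟨c, hKD hcK, h1, h2⟩
      push Not at hc
      obtain ⟨a, ha, h1, h2⟩ := hAdense d d' hdd'
      refine ⟨a, ?_, h1, h2⟩
      rcases hDtype d hd with ⟨b, hb⟩ | ⟨b, hb⟩
      · refine hDl a ha b ⟨⟨hb.1.1, le_trans hb.1.2 h1.le⟩, fun c hcK => ?_⟩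
        by_cases h3 : c ≤ d
        · exact hb.2 ⟨hcK.1, h3⟩
        · have := hc c hcK.1 (not_le.1 h3)
          have h4 : c ≤ a := hcK.2
          exfalso
          linarith
      · rcases eq_or_lt_of_le (show d ≤ b from hb.1.2) with h3 | h3
        · refine hDl a ha d ⟨⟨by rw [h3]; exact hb.1.1, h1.le⟩, fun c hcK => ?_⟩
          by_contra h4
          have := hc c hcK.1 (not_le.1 h4)
          have h5 : c ≤ a := hcK.2
          linarith
        · have h4 := hc b hb.1.1 h3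
          refine hDr a ha b ⟨⟨hb.1.1, le_trans h2.le h4⟩, fun c hcK => ?_⟩
          exact hb.2 ⟨hcK.1, le_trans h1.le hcK.2⟩)
    (by
      intro d hd
      by_cases hc : ∃ c ∈ K, c < d
      · obtain ⟨c, hcK, h1⟩ := hc
        exact ⟨c, hKD hcK, h1⟩
      push Not at hc
      obtain ⟨a, ha, h1, h2⟩ := hAdense (d - 1) d (by linarith)
      refine ⟨a, ?_, h2⟩
      rcases hDtype d hd with ⟨b, hb⟩ | ⟨b, hb⟩
      · have h3 := hc b hb.1.1
        exact hDr a ha b ⟨⟨hb.1.1, le_trans h2.le h3⟩,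
          fun c hcK => le_trans (show b ≤ d from hb.1.2) (hc c hcK.1)⟩
      · exact hDr a ha b ⟨⟨hb.1.1, le_trans h2.le (hc b hb.1.1)⟩,
          fun c hcK => hb.2 ⟨hcK.1, hc c hcK.1⟩⟩)
    (by
      intro d hd
      by_cases hc : ∃ c ∈ K, d < c
      · obtain ⟨c, hcK, h1⟩ := hc
        exact ⟨c, hKD hcK, h1⟩
      push Not at hc
      obtain ⟨a, ha, h1, h2⟩ := hAdense d (d + 1) (by linarith)
      refine ⟨a, ?_, h1⟩
      rcases hDtype d hd with ⟨b, hb⟩ | ⟨b, hb⟩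
      · exact hDl a ha b ⟨⟨hb.1.1, le_trans (hc b hb.1.1) h1.le⟩,
          fun c hcK => hb.2 ⟨hcK.1, hc c hcK.1⟩⟩
      · have h3 := hc b hb.1.1
        exact hDl a ha b ⟨⟨hb.1.1, le_trans h3 h1.le⟩,
          fun c hcK => le_trans (hc c hcK.1) (show d ≤ b from hb.1.2)⟩)
    (hKne.mono hKD)
  -- the retraction of `D` onto `K`
  have hret : ∀ d : ℝ, ∃ b : ℝ, d ∈ D → b ∈ K ∧ (IsGreatest (K ∩ Set.Iic d) b ∨
      (IsLeast (K ∩ Set.Ici d) b ∧ ¬ ∃ c, IsGreatest (K ∩ Set.Iic d) c)) := by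
    intro d
    by_cases hd : d ∈ D
    · by_cases h : ∃ b, IsGreatest (K ∩ Set.Iic d) b
      · obtain ⟨b, hb⟩ := h
        exact ⟨b, fun _ => ⟨hb.1.1, Or.inl hb⟩⟩
      · rcases hDtype d hd with h' | ⟨b, hb⟩
        · exact absurd h' h
        · exact ⟨b, fun _ => ⟨hb.1.1, Or.inr ⟨hb, h⟩⟩⟩
    · exact ⟨0, fun h => absurd h hd⟩
  choose g hg using hret
  have hgmono : ∀ x ∈ D, ∀ y ∈ D, x ≤ y → g x ≤ g y := by
    intro x hx y hy hxy
    rcases (hg x hx).2 with hx1 | ⟨hx1, hx2⟩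
    · rcases (hg y hy).2 with hy1 | ⟨hy1, hy2⟩
      · exact hy1.2 ⟨hx1.1.1, le_trans hx1.1.2 hxy⟩
      · exact le_trans hx1.1.2 (le_trans hxy hy1.1.2)
    · rcases (hg y hy).2 with hy1 | ⟨hy1, hy2⟩
      · by_cases h1 : g x ≤ y
        · exact hy1.2 ⟨hx1.1.1, h1⟩
        · rw [not_le] at h1
          exfalso
          refine hx2 ⟨g y, ⟨hy1.1.1, ?_⟩, fun c hc => hy1.2 ⟨hc.1, le_trans hc.2 hxy⟩⟩
          by_contra h2
          have h3 : x < g y := not_le.1 h2
          have h4 : g x ≤ g y := hx1.2 ⟨hy1.1.1, h3.le⟩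
          have h5 : g y ≤ y := hy1.1.2
          linarith
      · exact hx1.2 ⟨hy1.1.1, le_trans hxy hy1.1.2⟩
  refine ⟨fun a => ⟨⟨g (f a), hKA (hg _ (hf1 a a.2)).1⟩, hKmem _ (hg _ (hf1 a a.2)).1⟩, ?_, ?_⟩
  · intro a b hab
    exact hgmono _ (hf1 a a.2) _ (hf1 b b.2) (hf2 a a.2 b b.2 hab)
  · rintro ⟨b, hb⟩
    obtain ⟨a, ha, hab⟩ := hf3 b.1 (hKD (hKmem' b hb))
    refine ⟨⟨a, ha⟩, Subtype.ext (Subtype.ext ?_)⟩
    change g (f a) = b.1
    rw [hab]
    have hbK := hKmem' b hb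
    rcases (hg b.1 (hKD hbK)).2 with h | ⟨-, h⟩
    · exact le_antisymm h.1.2 (h.2 ⟨hbK, Set.mem_Iic.2 le_rfl⟩)
    · exact absurd ⟨b.1, ⟨hbK, Set.mem_Iic.2 le_rfl⟩, fun c hc => hc.2⟩ h

/-- **`MA_{aleph_1}` implies that some set of reals of cardinality `aleph_1` is strongly
surjective.** -/
theorem result (hMA : MartinAxiomAlephOne) : ∃ A : Set ℝ, #A = ℵ₁ ∧ StronglySurjective A := by
  obtain ⟨X, hX⟩ := le_mk_iff_exists_set.1 (aleph_one_le_continuum.trans_eq mk_real.symm)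
  refine ⟨Set.range fun z : X × ℚ => (z.1 : ℝ) + z.2, ?_, ?_⟩
  · refine le_antisymm ?_ ?_
    · refine mk_range_le.trans ?_
      rw [mk_prod, lift_id, lift_id, hX, mk_denumerable]
      exact (mul_le_max_of_aleph0_le_left (aleph0_le_aleph 1)).trans
        (max_le le_rfl (aleph0_le_aleph 1))
    · rw [← hX]
      refine mk_le_mk_of_subset fun x hx => ⟨(⟨x, hx⟩, 0), by simp⟩
  · have hXne : X.Nonempty := by
      rw [Set.nonempty_iff_ne_empty]
      rintro rfl
      have h0 : #(∅ : Set ℝ) = 0 := mk_eq_zero _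
      rw [h0] at hX
      exact absurd hX.symm (aleph_pos 1).ne'
    refine stronglySurjective_of_rational_invariant hMA ?_ ?_ ?_
    · obtain ⟨x, hx⟩ := hXne
      exact ⟨_, (⟨x, hx⟩, 0), rfl⟩
    · rintro _ ⟨⟨x, r⟩, rfl⟩ q
      exact ⟨(x, r + q), by push_cast; ring⟩
    · refine mk_range_le.trans ?_
      rw [mk_prod, lift_id, lift_id, hX, mk_denumerable]
      exact (mul_le_max_of_aleph0_le_left (aleph0_le_aleph 1)).trans
        (max_le le_rfl (aleph0_le_aleph 1))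

end Pool.Agent.Results.MP_841ff5_lc.MAStronglySurjective
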